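import Pool.Agent.H69.Inv3

set_option autoImplicit false

namespace Pool.Agent.Results.MP_b4aa87_al.Intermediate

open Pool.Agent.H69.AutGr

theorem result : ∃ (G : Type) (_ : Group G) (S : Finset G), Subgroup.closure (S : Set G) = ⊤ ∧
    (∀ d : ℕ, ¬ Prec (autGrowth S) (fun n => n ^ d)) ∧ ¬ Prec (fun n => 2 ^ n) (autGrowth S) :=
  Pool.Agent.H69.Inv.main

end Pool.Agent.Results.MP_b4aa87_al.Intermediate
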